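import Pool.Agent.Y109.OI.D

/-!
# Regularity along finitely generated OI-modules encodes zeros of linear recurrences

Fix `c ≥ 1` and let `P = (X^{OI,1})^{⊗ c}`.

1. For every field `K`, every square matrix `T` over `K` and all vectors `x`, `y` there is a
   finitely generated graded OI-module `M` over `P` with `reg M_n = 1` if `y · T ^ n x = 0` and
   `reg M_n = 0` otherwise, for all `n ≥ 1`.
2. For every field `K`, every period `m ≥ 1` and every set `R` of residues there is a finitely
   generated graded OI-module `M` over `P` with `reg M_n = 1` if `n mod m ∈ R` and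
   `reg M_n = 0` otherwise, for all `n ≥ 1`.
3. For every prime `p` and every field `K` of characteristic `p` which is not algebraic over its
   prime field there is a finitely generated graded OI-module `M` over `P` with `reg M_n = 1` if
   `n` is a power of `p` and `reg M_n = 0` otherwise, for all `n ≥ 1`; in particular
   `n ↦ reg M_n` is not even eventually quasi-linear.
-/

open H379R3 H379R3.OIReg

universe u

namespace Pool.Agent.Results.MP_9ec07c_ag.LinearRecurrences

open Classical in
theorem result (c : ℕ) (hc : 1 ≤ c) :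
    (∀ (K : Type u) [Field K] (k : ℕ) (T : Matrix (Fin k) (Fin k) K) (x y : Fin k → K),
      ∃ M : GradedOIModule K c, M.FinGen ∧ ∀ n : ℕ, 1 ≤ n → ∀ r : ℤ,
        M.HasReg n r ↔ r = if y ⬝ᵥ (T ^ n).mulVec x = 0 then 1 else 0) ∧
    (∀ (K : Type u) [Field K] (m : ℕ), 1 ≤ m → ∀ R : Set ℕ,
      ∃ M : GradedOIModule K c, M.FinGen ∧ ∀ n : ℕ, 1 ≤ n → ∀ r : ℤ,
        M.HasReg n r ↔ r = if n % m ∈ R then 1 else 0) ∧
    (∀ (p : ℕ) [Fact p.Prime] (K : Type u) [Field K] [Algebra (ZMod p) K],
      (∃ t : K, Transcendental (ZMod p) t) →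
      ∃ M : GradedOIModule K c, M.FinGen ∧
        (∀ n : ℕ, 1 ≤ n → ∀ r : ℤ, M.HasReg n r ↔ r = if ∃ k, n = p ^ k then 1 else 0) ∧
        ¬ Pool.Agent.Y109.OI.EventuallyQuasiLinear M.HasReg) := by
  refine ⟨?_, ?_, ?_⟩
  · intro K _ k T x y
    exact Pool.Agent.Y109.OI.recurrence T x y hc
  · intro K _ m hm R
    exact Pool.Agent.Y109.OI.periodic K hc m hm R
  · rintro p _ K _ _ ⟨t, ht⟩
    obtain ⟨M, hM, h⟩ := Pool.Agent.Y109.OI.powers p t ht hc
    exact ⟨M, hM, h,
      Pool.Agent.Y109.OI.not_quasiLinear p (Fact.out : p.Prime).two_le M.HasReg h⟩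

end Pool.Agent.Results.MP_9ec07c_ag.LinearRecurrences
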